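import Mathlib
import Pool.Agent.R796.Disc4

/-!
# The symmetrized disc game: for `0 < c ≤ 1/4` the players do not both have finitely supported
optimal strategies

RED and BLUE choose radii `s, t ∈ [0,1]`; the payoff `payoff c s t` to RED is the proportion of the
angles `θ ∈ [0, 2π)` for which the points with polar coordinates `(s, 0)` and `(t, θ)` are at
distance at most `c`. Mixed strategies are the Borel probability measures on `[0,1]`.

We show that for every `0 < c ≤ 1/4` and every real number `v` (in particular for the value of the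
game) it is impossible that RED has a finitely supported strategy which guarantees at least `v` and
BLUE has a finitely supported strategy which guarantees at most `v`. So the answer to the question
whether both players always have finitely supported optimal strategies is no.

Idea of the proof. Let `μ = ∑ vᵢ δ(xᵢ)` and `ν = ∑ wⱼ δ(yⱼ)` be a finitely supported saddle point,
`F(t)` the payoff of `μ` against `t` and `P(s)` the payoff of `s` against `ν`. The square root
singularities of the kernel show that there are no coincidences `xᵢ = yⱼ + c`, `xᵢ + yⱼ = c`,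
`yⱼ = xᵢ + c`. So `F` is smooth at each `yⱼ ∈ (c, 1)`, and outside the disc of radius `c` around the
origin `F` is a strictly superharmonic function of the point of BLUE, hence it has no local minimum
there. So BLUE only uses radii in `[0, c]` and the radius `1`. Against this RED gets at least
`α / (1 + α)`, `α = arcsin c / π`, by mixing the centre with the circle of radius `√(1 - c²)`. But
BLUE can do better by mixing the circles of radii `1` and `1/2`.
-/

open MeasureTheory Set

namespace Pool.Agent.Results.MP_3339db_co.NoFiniteOptimalPair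

/-- The payoff to RED of the symmetrized disc game: the measure of the set of the angles
`θ ∈ [0, 2π)` with `s² + t² - 2 s t cos θ ≤ c²`, divided by `2π`. -/
noncomputable def payoff (c s t : ℝ) : ℝ :=
  (volume {θ : ℝ | θ ∈ Ico 0 (2 * Real.pi) ∧
    s ^ 2 + t ^ 2 - 2 * s * t * Real.cos θ ≤ c ^ 2}).toReal / (2 * Real.pi)

/-- A mixed strategy (of either player): a Borel probability measure on `[0,1]`. -/
abbrev Strategy : Type := ProbabilityMeasure (Icc (0 : ℝ) 1)

/-- The strategy is supported on finitely many points of `[0,1]`. -/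
def FinitelySupported (μ : Strategy) : Prop :=
  ∃ A : Set (Icc (0 : ℝ) 1), A.Finite ∧ (μ : Measure (Icc (0 : ℝ) 1)) Aᶜ = 0

/-- The strategy `μ` of RED guarantees at least `v` to RED. -/
def RedGuarantees (c v : ℝ) (μ : Strategy) : Prop :=
  ∀ t : Icc (0 : ℝ) 1, v ≤ ∫ s : Icc (0 : ℝ) 1, payoff c s t ∂(μ : Measure (Icc (0 : ℝ) 1))

/-- The strategy `ν` of BLUE guarantees that RED gets at most `v`. -/
def BlueGuarantees (c v : ℝ) (ν : Strategy) : Prop :=
  ∀ s : Icc (0 : ℝ) 1, ∫ t : Icc (0 : ℝ) 1, payoff c s t ∂(ν : Measure (Icc (0 : ℝ) 1)) ≤ v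

open Pool.Agent.R796.Disc

lemma volume_arc (u : ℝ) :
    volume {θ : ℝ | θ ∈ Ico 0 (2 * Real.pi) ∧ u ≤ Real.cos θ} =
      ENNReal.ofReal (2 * Real.arccos u) := by
  have hπ := Real.pi_pos
  rcases lt_or_ge 1 u with hu | hu
  · have h1 : {θ : ℝ | θ ∈ Ico 0 (2 * Real.pi) ∧ u ≤ Real.cos θ} = ∅ := by
      ext θ
      simp only [mem_setOf_eq, mem_empty_iff_false, iff_false, not_and, not_le]
      intro _
      linarith [Real.cos_le_one θ]
    rw [h1, Real.arccos_eq_zero.mpr hu.le]
    simp
  · set a := Real.arccos u with ha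
    have ha0 : 0 ≤ a := Real.arccos_nonneg u
    have haπ : a ≤ Real.pi := Real.arccos_le_pi u
    have hcos : -1 < u → Real.cos a = u := fun h => Real.cos_arccos h.le hu
    have hcosge : u ≤ Real.cos a := by
      rcases lt_or_ge (-1) u with h | h
      · rw [hcos h]
      · exact h.trans (Real.neg_one_le_cos a)
    have h1 : {θ : ℝ | θ ∈ Ico 0 (2 * Real.pi) ∧ u ≤ Real.cos θ} =
        Ico 0 (2 * Real.pi) \ Ioo a (2 * Real.pi - a) := by
      ext θ
      simp only [mem_setOf_eq, mem_diff, mem_Ico, mem_Ioo, not_and, not_lt]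
      constructor
      · rintro ⟨⟨h0, h2⟩, h3⟩
        refine ⟨⟨h0, h2⟩, ?_⟩
        intro h4
        by_contra h5
        push Not at h5
        -- `a < θ < 2π - a`, so `cos θ < u`
        have hu1 : -1 < u := by
          by_contra h6
          push Not at h6
          have : a = Real.pi := Real.arccos_eq_pi.mpr h6
          linarith
        rcases le_total θ Real.pi with h6 | h6
        · have h7 := Real.strictAntiOn_cos ⟨ha0, haπ⟩ ⟨h0, h6⟩ h4
          rw [hcos hu1] at h7
          linarith
        · have h7 := Real.strictAntiOn_cos ⟨ha0, haπ⟩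
            (⟨by linarith, by linarith⟩ : 2 * Real.pi - θ ∈ Icc 0 Real.pi) (by linarith)
          rw [hcos hu1, Real.cos_two_pi_sub] at h7
          linarith
      · rintro ⟨⟨h0, h2⟩, h3⟩
        refine ⟨⟨h0, h2⟩, ?_⟩
        rcases le_or_gt θ a with h4 | h4
        · exact hcosge.trans (Real.strictAntiOn_cos.antitoneOn
            (⟨h0, h4.trans haπ⟩ : θ ∈ Icc 0 Real.pi) ⟨ha0, haπ⟩ h4)
        · have h5 := h3 h4
          have h6 := Real.strictAntiOn_cos.antitoneOn
            (⟨by linarith, by linarith⟩ : 2 * Real.pi - θ ∈ Icc 0 Real.pi) ⟨ha0, haπ⟩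
            (by linarith)
          rw [Real.cos_two_pi_sub] at h6
          exact hcosge.trans h6
    rw [h1, measure_diff _ measurableSet_Ioo.nullMeasurableSet (by simp), Real.volume_Ico,
      Real.volume_Ioo, ← ENNReal.ofReal_sub _ (by linarith)]
    · congr 1
      ring
    · intro θ hθ
      exact ⟨by linarith [hθ.1], by linarith [hθ.2]⟩

lemma payoff_eq {c s t : ℝ} (hc : 0 < c) (hs : 0 ≤ s) (ht : 0 ≤ t) :
    payoff c s t = kk c s t := by
  have hπ := Real.pi_pos
  have htriv : ∀ r : ℝ, 0 ≤ r →
      (volume {θ : ℝ | θ ∈ Ico 0 (2 * Real.pi) ∧ r ^ 2 ≤ c ^ 2}).toReal / (2 * Real.pi) =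
        if r ≤ c then 1 else 0 := by
    intro r hr
    split_ifs with h
    · have h1 : {θ : ℝ | θ ∈ Ico 0 (2 * Real.pi) ∧ r ^ 2 ≤ c ^ 2} = Ico 0 (2 * Real.pi) := by
        ext θ
        simp only [mem_setOf_eq, and_iff_left_iff_imp]
        intro _
        exact pow_le_pow_left₀ hr h 2
      rw [h1, Real.volume_Ico, ENNReal.toReal_ofReal (by linarith), sub_zero,
        div_self (by positivity)]
    · have h1 : {θ : ℝ | θ ∈ Ico 0 (2 * Real.pi) ∧ r ^ 2 ≤ c ^ 2} = ∅ := by
        ext θ
        simp only [mem_setOf_eq, mem_empty_iff_false, iff_false, not_and, not_le]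
        intro _
        push Not at h
        exact pow_lt_pow_left₀ h hc.le (by norm_num)
      rw [h1]
      simp
  rcases hs.eq_or_lt with h0 | h0
  · subst h0
    rw [kk_zero_left, ← htriv t ht]
    unfold payoff
    simp
  · rcases ht.eq_or_lt with h1 | h1
    · subst h1
      rw [kk_zero_right hc, ← htriv s hs]
      unfold payoff
      simp
    · rw [kk_pos_eq h0 h1]
      unfold payoff
      have h2 : {θ : ℝ | θ ∈ Ico 0 (2 * Real.pi) ∧
          s ^ 2 + t ^ 2 - 2 * s * t * Real.cos θ ≤ c ^ 2} =
          {θ : ℝ | θ ∈ Ico 0 (2 * Real.pi) ∧ U c s t ≤ Real.cos θ} := by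
        ext θ
        simp only [mem_setOf_eq, and_congr_right_iff]
        intro _
        unfold U
        rw [div_le_iff₀ (by positivity)]
        constructor <;> intro h <;> linarith
      rw [h2, volume_arc, ENNReal.toReal_ofReal (by
        have := Real.arccos_nonneg (U c s t)
        linarith)]
      field_simp

/-- A finitely supported strategy is a finite sum of positive point masses. -/
lemma exists_atoms (μ : Strategy) (hμ : FinitelySupported μ) :
    ∃ (A : Finset (Icc (0 : ℝ) 1)) (v : Icc (0 : ℝ) 1 → ℝ), (∀ i ∈ A, 0 < v i) ∧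
      ∑ i ∈ A, v i = 1 ∧ ∀ f : Icc (0 : ℝ) 1 → ℝ,
        ∫ s, f s ∂(μ : Measure (Icc (0 : ℝ) 1)) = ∑ i ∈ A, v i * f i := by
  classical
  obtain ⟨S, hS, hμS⟩ := hμ
  set m : Measure (Icc (0 : ℝ) 1) := (μ : Measure (Icc (0 : ℝ) 1)) with hm
  set A0 := hS.toFinset with hA0
  have hcoe : (A0 : Set (Icc (0 : ℝ) 1)) = S := hS.coe_toFinset
  have hres : m.restrict (A0 : Set (Icc (0 : ℝ) 1)) = m := by
    apply Measure.restrict_eq_self_of_ae_mem
    rw [hcoe]
    exact hμS
  have hint : ∀ f : Icc (0 : ℝ) 1 → ℝ, ∫ s, f s ∂m = ∑ i ∈ A0, m.real {i} * f i := by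
    intro f
    have h1 := setIntegral_finset (μ := m) A0 (f := f) IntegrableOn.finset
    rw [hres] at h1
    rw [h1]
    rfl
  have hfil : ∀ f : Icc (0 : ℝ) 1 → ℝ, ∑ i ∈ A0, m.real {i} * f i =
      ∑ i ∈ A0.filter (fun i => m.real {i} ≠ 0), m.real {i} * f i := by
    intro f
    symm
    apply Finset.sum_filter_of_ne
    intro i _ h h0
    exact h (by rw [h0, zero_mul])
  refine ⟨A0.filter (fun i => m.real {i} ≠ 0), fun i => m.real {i}, ?_, ?_, ?_⟩
  · intro i hi
    rw [Finset.mem_filter] at hi
    exact lt_of_le_of_ne measureReal_nonneg (Ne.symm hi.2)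
  · have h1 := hint (fun _ => 1)
    rw [hfil] at h1
    simp only [mul_one, integral_const, smul_eq_mul, probReal_univ] at h1
    exact h1.symm
  · intro f
    rw [hint f, hfil f]

/-- **No pair of finitely supported optimal strategies.** For every `0 < c ≤ 1/4` there is no real
number `v` (in particular the value of the game is not such a number) such that RED has a finitely
supported mixed strategy guaranteeing at least `v` and BLUE has a finitely supported mixed strategy
guaranteeing at most `v`. -/
theorem result : ∀ c : ℝ, 0 < c → c ≤ 1 / 4 → ∀ v : ℝ,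
    ¬ ((∃ μ : Strategy, FinitelySupported μ ∧ RedGuarantees c v μ) ∧
      (∃ ν : Strategy, FinitelySupported ν ∧ BlueGuarantees c v ν)) := by
  rintro c hc hc1 V ⟨⟨μ, hμ, hF⟩, ⟨ν, hν, hP⟩⟩
  obtain ⟨A, v, hv, hvs, hvi⟩ := exists_atoms μ hμ
  obtain ⟨B, w, hw, hws, hwi⟩ := exists_atoms ν hν
  have hpair : Pair c V A B (fun i : Icc (0 : ℝ) 1 => (i : ℝ)) v
      (fun i : Icc (0 : ℝ) 1 => (i : ℝ)) w := by
    refine ⟨hc, hv, fun i _ => i.2.1, fun i _ => i.2.2, hvs, hw, fun i _ => i.2.1,
      fun i _ => i.2.2, hws, ?_, ?_⟩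
    · intro t ht0 ht1
      have h1 := hF ⟨t, ht0, ht1⟩
      rw [hvi] at h1
      refine h1.trans (le_of_eq (Finset.sum_congr rfl fun i _ => ?_))
      rw [payoff_eq hc i.2.1 ht0]
    · intro s hs0 hs1
      have h1 := hP ⟨s, hs0, hs1⟩
      rw [hwi] at h1
      refine (le_of_eq (Finset.sum_congr rfl fun i _ => ?_)).trans h1
      rw [payoff_eq hc hs0 i.2.1]
  exact no_pair hpair hc1

end Pool.Agent.Results.MP_3339db_co.NoFiniteOptimalPair
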